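import Pool.Agent.Helper76.PC.Stmts

set_option autoImplicit false

/-! # Soundness of the whole check (ALL) -/

namespace Pool.Agent.Helper76.PC

open Finset

theorem all_entOK (lib : List Ent) (l : List Ent) : ∀ i : ℕ, checkL lib i l = true →
    ∀ j e, getE j l = some e → entOK lib (i + j) e = true := by
  induction l with
  | nil =>
    intro i _ j e he
    simp [getE] at he
  | cons e0 l ih =>
    intro i hi j e he
    rw [checkL, Bool.and_eq_true] at hi
    cases j with
    | zero =>
      rw [getE, Option.some.injEq] at he
      subst he
      exact hi.1
    | succ j =>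
      rw [getE] at he
      have h1 := ih (i + 1) hi.2 j e he
      have e1 : i + 1 + j = i + (j + 1) := by omega
      rw [e1] at h1
      exact h1

theorem st_ALL (h1 : ST_EV) (h2 : ST_CHK) (h3 : ST_CLO) : ST_ALL := by
  intro lib hlib i
  induction i using Nat.strong_induction_on with
  | _ i ih =>
    intro e he
    have h4 := all_entOK lib lib 0 hlib i e he
    rw [zero_add, entOK, Bool.and_eq_true] at h4
    refine ⟨h4.1, ?_⟩
    have h5 := h4.2
    cases hpf : e.pf with
    | cert c =>
      rw [hpf] at h5
      cases hev : ev c e.K .cfg with
      | none => simp [hev] at h5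
      | some b =>
        simp only [hev] at h5
        have hb : b ≤ DD := Nat.le_of_ble_eq_true h5
        intro G φ f hE hB _
        have h6 := h1 c e.K b hev G φ f hE hB
        have hW : 0 ≤ W G := (Real.exp_pos _).le
        have hD : (0 : ℝ) < DD := by
          unfold DD
          norm_num
        have hb' : (b : ℝ) ≤ DD := by exact_mod_cast hb
        have h7 : (P G : ℝ) * DD ≤ W G * DD := by
          calc (P G : ℝ) * DD ≤ b * W G := h6
            _ ≤ DD * W G := mul_le_mul_of_nonneg_right hb' hW
            _ = W G * DD := mul_comm _ _
        exact le_of_mul_le_mul_right h7 hD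
    | split p =>
      rw [hpf] at h5
      exact h2 lib i ih e.dm p e.K h5
    | closed s n =>
      rw [hpf] at h5
      exact h3 s n e.K h5 e.dm

end Pool.Agent.Helper76.PC
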