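import Pool.Agent.Helper76.PC.Stmts

set_option autoImplicit false

/-! # Weight after the deletion of two adjacent vertices (WD) -/

namespace Pool.Agent.Helper76.PC

open Finset

theorem wd_degSum (G : Gr) (v : ℕ) (hv : v ∈ G.V) :
    degSum (del G v) + 2 * (G.N v).card = degSum G := by
  have h1 : degSum G = (G.N v).card + ∑ x ∈ G.V.erase v, (G.N x).card := by
    unfold degSum
    exact (Finset.add_sum_erase G.V (fun x => (G.N x).card) hv).symm
  have h2 : degSum (del G v) + (G.N v).card = ∑ x ∈ G.V.erase v, (G.N x).card := by
    have e1 : (G.N v).card = ∑ x ∈ G.V.erase v, (if v ∈ G.N x then 1 else 0) := by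
      rw [← Finset.sum_filter, Finset.sum_const, smul_eq_mul, mul_one]
      congr 1
      ext x
      rw [Finset.mem_filter, Finset.mem_erase]
      constructor
      · intro hx
        have h3 := G.symm v x hx
        refine ⟨⟨?_, G.mem x v h3⟩, h3⟩
        rintro rfl
        exact G.bip _ _ hx rfl
      · rintro ⟨_, hx⟩
        exact G.symm x v hx
    have e2 : degSum (del G v) = ∑ x ∈ G.V.erase v, ((G.N x).erase v).card := by
      unfold degSum
      refine Finset.sum_congr rfl fun x hx => ?_
      change (if x = v then ∅ else (G.N x).erase v).card = _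
      rw [if_neg (Finset.ne_of_mem_erase hx)]
    rw [e2, e1, ← Finset.sum_add_distrib]
    refine Finset.sum_congr rfl fun x _ => ?_
    by_cases hx : v ∈ G.N x
    · rw [if_pos hx, Finset.card_erase_add_one hx]
    · rw [if_neg hx, Finset.erase_eq_of_notMem hx, add_zero]
  omega

theorem st_WD : ST_WD := by
  intro G a b hab
  have ha : a ∈ G.V := G.mem a b hab
  have hba : a ∈ G.N b := G.symm a b hab
  have hb : b ∈ G.V := G.mem b a hba
  have hne : b ≠ a := by
    rintro rfl
    exact G.bip _ _ hab rfl
  have hb' : b ∈ (del G a).V := Finset.mem_erase.2 ⟨hne, hb⟩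
  have h1 := wd_degSum G a ha
  have h2 := wd_degSum (del G a) b hb'
  have h3 : ((del G a).N b).card + 1 = (G.N b).card := by
    change (if b = a then ∅ else (G.N b).erase a).card + 1 = _
    rw [if_neg hne, Finset.card_erase_add_one hba]
  have h4 : (del (del G a) b).V.card + 2 = G.V.card := by
    change ((G.V.erase a).erase b).card + 2 = _
    have e1 := Finset.card_erase_add_one (s := G.V.erase a) (a := b) hb'
    have e2 := Finset.card_erase_add_one (s := G.V) (a := a) ha
    omega
  have h5 : degSum (del (del G a) b) + 2 * ((G.N a).card + (G.N b).card) = degSum G + 2 := by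
    omega
  refine ⟨?_, ?_⟩
  · unfold W UU
    rw [← Real.exp_add]
    congr 1
    have h4' : ((del (del G a) b).V.card : ℝ) + 2 = G.V.card := by exact_mod_cast h4
    have h5' : (degSum (del (del G a) b) : ℝ) + 2 * ((G.N a).card + (G.N b).card) =
        degSum G + 2 := by exact_mod_cast h5
    push_cast
    linear_combination (AA / 2) * h4' + (cc / 2) * h5'
  · unfold size
    have h6 : 0 < (G.N a).card := Finset.card_pos.2 ⟨b, hab⟩
    have h7 : 0 < (G.N b).card := Finset.card_pos.2 ⟨a, hba⟩
    omega

end Pool.Agent.Helper76.PC
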